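import Pool.Agent.H93.PG.Targets

/-!
# Power-free shifts (`MP_32ebde_an`), board pgs, row CCD: decoding of the colour
-/

set_option autoImplicit false

open MeasureTheory Filter Topology Finset Pool.Agent.H93.PF Pool.Agent.H93.PG

namespace Pool.Agent.H52.PG

theorem ij_lv {Y : Type} [MeasurableSpace Y] (T : Y ≃ᵐ Y) (L : ℕ) (D : ℕ → Set Y) (y : Y) :
    ij T L D (lv T L D y) y = ix T L D y := by
  classical
  unfold ij ix
  have hmem : ∀ (n : ℕ) (j : ℤ), (j ∈ (do let a ← Finset.range n; pure (a : ℤ) : Finset ℤ)) ↔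
      0 ≤ j ∧ j < n := by
    intro n j
    simp only [Finset.bind_def, Finset.pure_def, Finset.mem_sup, Finset.mem_range,
      Finset.mem_singleton]
    constructor
    · rintro ⟨a, ha, rfl⟩
      omega
    · rintro ⟨h1, h2⟩
      exact ⟨j.toNat, by omega, by omega⟩
  refine Finset.card_bij (fun (j : ℕ) _ => (j : ℤ)) ?_ ?_ ?_
  · intro j hj
    rw [Finset.mem_filter, Finset.mem_range] at hj
    rw [Finset.mem_filter, hmem]
    exact ⟨⟨by omega, by omega⟩, hj.2⟩
  · intro a _ b _ hab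
    exact_mod_cast hab
  · intro t ht
    rw [Finset.mem_filter, hmem] at ht
    obtain ⟨⟨h1, h2⟩, h3⟩ := ht
    refine ⟨t.toNat, ?_, by omega⟩
    rw [Finset.mem_filter, Finset.mem_range]
    refine ⟨by omega, ?_⟩
    rw [Int.toNat_of_nonneg h1]
    exact h3

/-- the digits -/
theorem digits {a b c d e f a' b' c' d' e' f' : ℕ} (ha : a < 3) (ha' : a' < 3) (hb : b ≤ 39)
    (hb' : b' ≤ 39) (hc : c ≤ 39) (hc' : c' ≤ 39) (hd : d ≤ 39) (hd' : d' ≤ 39) (he : e ≤ 39)
    (he' : e' ≤ 39)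
    (h : a + 3 * (b + 40 * (c + 40 * (d + 40 * (e + 40 * f)))) =
      a' + 3 * (b' + 40 * (c' + 40 * (d' + 40 * (e' + 40 * f'))))) :
    a = a' ∧ b = b' ∧ c = c' ∧ d = d' ∧ e = e' ∧ f = f' := by
  omega

theorem pf_CCD : T_CCD := by
  intro Y _ T L D y y'
  have hm : ∀ n : ℕ, min n 39 ≤ 39 := fun n => min_le_right n 39
  have hl : ∀ z : Y, (co T L D z).1 < 3 := fun z => Nat.mod_lt _ (by norm_num)
  have hx : ∀ z : Y, (co T L D z).2 ≤ 39 := fun z => hm _
  refine ⟨?_, fun h => ?_⟩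
  · unfold cc NC
    have h1 := hl y
    have h2 := hx y
    have h3 := hm (ij T L D (lv T L D y + 1) y)
    have h4 := hm (ij T L D (lv T L D y + 2) y)
    have h5 := hm (ij T L D 0 y)
    have h6 := hm (ij T L D 1 y)
    generalize (co T L D y).1 = a at *
    generalize (co T L D y).2 = b at *
    generalize min (ij T L D (lv T L D y + 1) y) 39 = c at *
    generalize min (ij T L D (lv T L D y + 2) y) 39 = d at *
    generalize min (ij T L D 0 y) 39 = e at *
    generalize min (ij T L D 1 y) 39 = f at *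
    norm_num
    omega
  · unfold cc at h
    obtain ⟨e1, e2, e3, e4, e5, e6⟩ := digits (hl y) (hl y') (hx y) (hx y')
      (hm _) (hm _) (hm _) (hm _) (hm _) (hm _) h
    refine ⟨Prod.ext e1 e2, e5, e6, fun i hi => ?_⟩
    rcases (by omega : i = 0 ∨ i = 1 ∨ i = 2) with rfl | rfl | rfl
    · rw [add_zero, add_zero, ij_lv, ij_lv]
      exact e2
    · exact e3
    · exact e4

end Pool.Agent.H52.PG
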