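import Pool.Agent.H93.PG.Targets
import Pool.Agent.H49.PF.SKD
import Pool.Agent.H78.PF.CNT

/-!
# Power-free shifts (`MP_32ebde_an`), board pgs, row IJB: bound for the indices
-/

set_option autoImplicit false

open MeasureTheory Filter Topology Finset Pool.Agent.H93.PF Pool.Agent.H93.PG

namespace Pool.Agent.H52.PG

theorem pf_IJB : T_IJB := by
  intro L B c I hS hL hI j s
  obtain ⟨t, ht, hts, hgap, hno⟩ := (Pool.Agent.H49.PF.pf_SKD L B c hS hL (j + 1)).2.2 (s + 1)
  have h1 : I j s = cnt (B j) t s := hI j s t ht (by omega) fun x hx hx' => hno x hx (by omega)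
  have h2 := (Pool.Agent.H78.PF.pf_CNT (B j) t).2.2.2 (nn L j) s
    (Pool.Agent.H49.PF.pf_SKD L B c hS hL j).1 (hS.nest j ht) (by omega)
  rw [← h1] at h2
  by_contra hc
  have h3 : (40 : ℤ) ≤ (I j s : ℤ) := by omega
  have h4 : (40 : ℤ) * (nn L j : ℤ) ≤ (I j s : ℤ) * (nn L j : ℤ) :=
    mul_le_mul_of_nonneg_right h3 (Int.natCast_nonneg _)
  have h5 : (40 : ℤ) * (nn L j : ℤ) + 1 ≤ (gg L (j + 1) : ℤ) := by omega
  have h6 : 40 * nn L j + 1 ≤ gg L (j + 1) := by exact_mod_cast h5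
  cases j with
  | zero =>
    simp only [nn, gg, zero_add, pow_one] at h6
    omega
  | succ j =>
    simp only [nn, gg] at h6
    have e1 : 40 * (14 * 16 ^ j * L) = 560 * (16 ^ j * L) := by ring
    have e2 : 2 * 16 ^ (j + 1 + 1) * L = 512 * (16 ^ j * L) := by ring
    rw [e1, e2] at h6
    omega

end Pool.Agent.H52.PG
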